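import Mathlib

set_option autoImplicit false

/-!
# The class of canonical join complexes is not closed under induced subcomplexes

We show that there are a finite semidistributive lattice `L` and a set `W` of join-irreducible
elements of `L` such that the induced subcomplex on `W` of the canonical join complex of `L` is not
isomorphic to the canonical join complex of any finite semidistributive lattice.

* For join-irreducible `i ≠ j` of a finite semidistributive lattice, `{i, j}` is a face iff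
  `j ≰ i ∨ j_*` and `i ≰ j ∨ i_*` (`pair_face`).  Write `i → j` for `j ≤ i ∨ j_*`.
* If `i → j` then there is a join-irreducible `k` such that `k → z` implies `i → z` and `z → k`
  implies `z → j` (`factor`).
* So if the complement `T` of the graph of the 2-faces is triangle-free, an orientation of `T` along
  the arrows has no directed walk of length 3, and `T` is 3-colourable.
* For every digraph `R` there is a finite semidistributive lattice `M R` with join-irreducible
  elements `B v` (`v` a vertex), such that `B v → B w` iff `v = w` or `w → v` in `R`.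
* We take for `T` the Grötzsch graph, which is triangle-free and not 3-colourable.
-/

namespace Pool.Agent.Results.MP_b1aa48_co.InducedSubcomplex

section Defs

variable {L : Type*} [Lattice L]

/-- `L` is semidistributive: join-semidistributive and meet-semidistributive. -/
def Semidistributive (L : Type*) [Lattice L] : Prop :=
  (∀ x y z : L, x ⊔ y = x ⊔ z → x ⊔ (y ⊓ z) = x ⊔ y) ∧
  (∀ x y z : L, x ⊓ y = x ⊓ z → x ⊓ (y ⊔ z) = x ⊓ y)

/-- `A` is a join representation of `w`: the join of `A` is `w`. -/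
def IsJoinRep (A : Set L) (w : L) : Prop := IsLUB A w

/-- `A` refines `B`: every element of `A` lies below some element of `B`. -/
def Refines (A B : Set L) : Prop := ∀ a ∈ A, ∃ b ∈ B, a ≤ b

/-- `A` is the canonical join representation of `w`: it is an irredundant join representation of `w`
that refines every join representation of `w`. -/
def IsCanonicalJoinRep (A : Set L) (w : L) : Prop :=
  IsJoinRep A w ∧ (∀ B : Set L, B ⊂ A → ¬ IsJoinRep B w) ∧ ∀ B : Set L, IsJoinRep B w → Refines A B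

/-- `A` is a face of the canonical join complex of `L`: it is the canonical join representation of
some element. -/
def IsFace (A : Set L) : Prop := ∃ w : L, IsCanonicalJoinRep A w

end Defs

section General

variable {L : Type*} [Lattice L]

/-- `s` is the unique lower cover of `j`. -/
def IsStar (s j : L) : Prop := s < j ∧ ∀ x, x < j → x ≤ s

theorem exists_star [Finite L] {j : L} (hj : SupIrred j) : ∃ s, IsStar s j := by
  have hne : ({x : L | x < j}).Nonempty := by
    by_contra h
    rw [Set.not_nonempty_iff_eq_empty] at h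
    apply hj.1
    intro b hb
    rcases hb.eq_or_lt with h1 | h1
    · exact h1.ge
    · exact absurd (show b ∈ {x : L | x < j} from h1) (by rw [h]; simp)
  obtain ⟨s, hs⟩ := (Set.toFinite {x : L | x < j}).exists_maximal hne
  refine ⟨s, hs.prop, fun x hx => ?_⟩
  have h1 : x ⊔ s < j := by
    refine lt_of_le_of_ne (sup_le hx.le hs.prop.le) fun h => ?_
    rcases hj.2 h with h2 | h2
    · exact hx.ne h2
    · exact (show s < j from hs.prop).ne h2
  exact le_sup_left.trans (hs.le_of_ge h1 le_sup_right)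

theorem IsStar.unique {s t j : L} (hs : IsStar s j) (ht : IsStar t j) : s = t :=
  le_antisymm (ht.2 s hs.1) (hs.2 t ht.1)

/-- the arrow relation: `j ≤ i ∨ j_*` -/
def Arr (i j : L) : Prop := ∃ s, IsStar s j ∧ j ≤ i ⊔ s

theorem IsStar.arr_iff {i j s : L} (hs : IsStar s j) : Arr i j ↔ j ≤ i ⊔ s := by
  constructor
  · rintro ⟨t, ht, h⟩
    rwa [hs.unique ht]
  · intro h
    exact ⟨s, hs, h⟩

theorem arr_of_le [Finite L] {i j : L} (hj : SupIrred j) (h : j ≤ i) : Arr i j := by
  obtain ⟨s, hs⟩ := exists_star hj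
  exact ⟨s, hs, h.trans le_sup_left⟩

theorem below_of_not_arr [Finite L] (hL : Semidistributive L) {i j : L} (hi : SupIrred i)
    (h : ¬ Arr j i) {B : Set L} (hB : IsLUB B (i ⊔ j)) : ∃ b ∈ B, i ≤ b := by
  obtain ⟨s, hs⟩ := exists_star hi
  rw [hs.arr_iff] at h
  have hne : ({x : L | x ≤ i ⊔ j ∧ s ≤ x ∧ j ≤ x ∧ ¬ i ≤ x}).Nonempty :=
    ⟨j ⊔ s, sup_le le_sup_right (hs.1.le.trans le_sup_left), le_sup_right, le_sup_left, h⟩
  obtain ⟨y, hy⟩ := (Set.toFinite {x : L | x ≤ i ⊔ j ∧ s ≤ x ∧ j ≤ x ∧ ¬ i ≤ x}).exists_maximal hne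
  obtain ⟨hy1, hy2, hy3, hy4⟩ := hy.prop
  have hb : ∃ b ∈ B, ¬ b ≤ y := by
    by_contra hcon
    push Not at hcon
    exact hy4 (le_sup_left.trans (hB.2 hcon))
  obtain ⟨b, hbB, hby⟩ := hb
  refine ⟨b, hbB, ?_⟩
  have hbw : b ≤ i ⊔ j := hB.1 hbB
  have h1 : i ≤ y ⊔ b := by
    by_contra h2
    have h3 : y ⊔ b ≤ y := hy.le_of_ge ⟨sup_le hy1 hbw, hy2.trans le_sup_left,
      hy3.trans le_sup_left, h2⟩ le_sup_left
    exact hby (le_sup_right.trans h3)
  have h2 : y ⊔ b = y ⊔ i := by
    apply le_antisymm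
    · refine sup_le le_sup_left (hbw.trans (sup_le le_sup_right (hy3.trans le_sup_left)))
    · exact sup_le le_sup_left h1
  have h3 := hL.1 y b i h2
  by_contra hib
  have h4 : b ⊓ i < i := lt_of_le_of_ne inf_le_right fun h => hib (by
    rw [← h]; exact inf_le_left)
  have h5 : b ⊓ i ≤ y := (hs.2 _ h4).trans hy2
  rw [sup_eq_left.2 h5, h2] at h3
  exact hy4 (h3 ▸ le_sup_right)

theorem not_arr_of_face [Finite L] {i j : L} (hj : SupIrred j) (hij : i ≠ j)
    (hf : IsFace ({i, j} : Set L)) : ¬ Arr i j := by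
  obtain ⟨w, hw1, hw2, hw3⟩ := hf
  obtain ⟨s, hs⟩ := exists_star hj
  rw [hs.arr_iff]
  intro h
  have hw : w = i ⊔ j := (isLUB_pair.unique hw1).symm
  have h1 : IsLUB ({i, s} : Set L) w := by
    have : w = i ⊔ s := by
      rw [hw]
      exact le_antisymm (sup_le le_sup_left h) (sup_le le_sup_left (hs.1.le.trans le_sup_right))
    rw [this]; exact isLUB_pair
  obtain ⟨b, hb, hjb⟩ := hw3 _ h1 j (by simp)
  rcases hb with rfl | hb
  · -- j ≤ i
    have h2 : IsLUB ({b} : Set L) w := by
      have : w = b := by rw [hw]; exact sup_eq_left.2 hjb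
      rw [this]; exact isLUB_singleton
    refine hw2 {b} ?_ h2
    rw [Set.ssubset_iff_subset_ne]
    refine ⟨by simp, fun h => hij ?_⟩
    have : j ∈ ({b} : Set L) := by rw [h]; simp
    exact (Set.mem_singleton_iff.1 this).symm
  · rw [Set.mem_singleton_iff.1 hb] at hjb
    exact absurd hs.1 (not_lt_of_ge hjb)

/-- For join-irreducible `i ≠ j`: `{i, j}` is a face iff there is no arrow between `i` and `j`. -/
theorem pair_face [Finite L] (hL : Semidistributive L) {i j : L} (hi : SupIrred i) (hj : SupIrred j)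
    (hij : i ≠ j) : IsFace ({i, j} : Set L) ↔ ¬ Arr i j ∧ ¬ Arr j i := by
  constructor
  · intro hf
    refine ⟨not_arr_of_face hj hij hf, not_arr_of_face hi hij.symm ?_⟩
    rw [Set.pair_comm]; exact hf
  · rintro ⟨h1, h2⟩
    refine ⟨i ⊔ j, isLUB_pair, ?_, ?_⟩
    · intro B hB hlub
      have hcase : i ∉ B ∨ j ∉ B := by
        by_contra hcon
        push Not at hcon
        exact hB.2 (by
          intro x hx
          rcases hx with rfl | hx
          · exact hcon.1
          · rw [Set.mem_singleton_iff.1 hx]; exact hcon.2)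
      rcases hcase with h | h
      · have h3 : i ⊔ j ≤ j := by
          apply hlub.2
          intro x hx
          rcases hB.1 hx with rfl | hx'
          · exact absurd hx h
          · exact (Set.mem_singleton_iff.1 hx').le
        exact h2 (arr_of_le hi (le_sup_left.trans h3))
      · have h3 : i ⊔ j ≤ i := by
          apply hlub.2
          intro x hx
          rcases hB.1 hx with rfl | hx'
          · exact le_rfl
          · rw [Set.mem_singleton_iff.1 hx'] at hx
            exact absurd hx h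
        exact h1 (arr_of_le hj (le_sup_right.trans h3))
    · intro B hB a ha
      rcases ha with rfl | ha
      · exact below_of_not_arr hL hi h2 hB
      · rw [Set.mem_singleton_iff.1 ha]
        refine below_of_not_arr hL hj h1 (j := i) ?_
        rw [sup_comm]; exact hB

/-- The factorisation of an arrow. -/
theorem factor [Finite L] (hL : Semidistributive L) {i j : L} (hj : SupIrred j) (h : Arr i j) :
    ∃ k, SupIrred k ∧ (∀ z, Arr k z → Arr i z) ∧ ∀ z, Arr z k → Arr z j := by
  obtain ⟨s, hs⟩ := exists_star hj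
  rw [hs.arr_iff] at h
  obtain ⟨k, hk⟩ := (Set.toFinite {x : L | x ≤ i ∧ j ≤ x ⊔ s}).exists_minimal ⟨i, le_rfl, h⟩
  obtain ⟨hki, hkj⟩ := hk.prop
  have hmin : ∀ x, x < k → ¬ j ≤ x ⊔ s := by
    intro x hx hjx
    exact absurd (hk.le_of_le ⟨hx.le.trans hki, hjx⟩ hx.le) (not_le_of_gt hx)
  -- if `j ≰ x`, `s ≤ x` then `j ⊓ x = s`
  have hinf : ∀ x, ¬ j ≤ x ⊔ s → j ⊓ (x ⊔ s) = s := by
    intro x hx
    apply le_antisymm
    · apply hs.2
      refine lt_of_le_of_ne inf_le_left fun h => hx ?_
      rw [← h]; exact inf_le_right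
    · exact le_inf hs.1.le le_sup_right
  have hkirr : SupIrred k := by
    refine ⟨fun hmin' => ?_, fun b c hbc => ?_⟩
    · have h1 : k ≤ s := (hmin' (inf_le_left : k ⊓ s ≤ k)).trans inf_le_right
      rw [sup_eq_right.2 h1] at hkj
      exact absurd hs.1 (not_lt_of_ge hkj)
    · by_contra hcon
      push Not at hcon
      have hb : b < k := lt_of_le_of_ne (hbc ▸ le_sup_left) hcon.1
      have hc : c < k := lt_of_le_of_ne (hbc ▸ le_sup_right) hcon.2
      have h1 := hinf b (hmin b hb)
      have h2 := hinf c (hmin c hc)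
      have h3 := hL.2 j (b ⊔ s) (c ⊔ s) (h1.trans h2.symm)
      have h4 : (b ⊔ s) ⊔ (c ⊔ s) = k ⊔ s := by rw [← hbc, sup_sup_sup_comm, sup_idem]
      rw [h4, h1, inf_eq_left.2 hkj] at h3
      exact hs.1.ne' h3
  obtain ⟨sk, hsk⟩ := exists_star hkirr
  refine ⟨k, hkirr, ?_, ?_⟩
  · rintro z ⟨t, ht, h1⟩
    exact ⟨t, ht, h1.trans (sup_le_sup_right hki _)⟩
  · intro z hz
    rw [hsk.arr_iff] at hz
    rw [hs.arr_iff]
    by_contra hcon
    have h1 := hinf z hcon
    have h2 := hinf sk (hmin sk hsk.1)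
    have h3 := hL.2 j (z ⊔ s) (sk ⊔ s) (h1.trans h2.symm)
    have h4 : j ≤ (z ⊔ s) ⊔ (sk ⊔ s) := by
      refine hkj.trans (sup_le (hz.trans ?_) ?_)
      · exact sup_le (le_sup_left.trans le_sup_left) (le_sup_left.trans le_sup_right)
      · exact le_sup_right.trans le_sup_left
    rw [h1, inf_eq_left.2 h4] at h3
    exact hs.1.ne' h3

end General

/-! ### The lattice of a digraph -/

section Digraph

/-- The lattice `M R` of a digraph `R`: pairs of a set `S` of arcs and a set `P` of vertices such that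
`P` contains the tails of the arcs in `S`, and every vertex of `P` is the tail of an arc in `S` or has
all its incoming arcs in `S`; ordered by inclusion. -/
@[ext] structure M {V : Type*} (R : V → V → Prop) where
  /-- the set of arcs -/
  S : Set (V × V)
  /-- the set of vertices -/
  P : Set V
  arc : ∀ e ∈ S, R e.1 e.2
  tail : ∀ e ∈ S, e.1 ∈ P
  full : ∀ v ∈ P, (∃ w, (v, w) ∈ S) ∨ ∀ u, R u v → (u, v) ∈ S

variable {V : Type*} {R : V → V → Prop}

instance : Lattice (M R) where
  le x y := x.S ⊆ y.S ∧ x.P ⊆ y.P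
  le_refl x := ⟨subset_rfl, subset_rfl⟩
  le_trans x y z h1 h2 := ⟨h1.1.trans h2.1, h1.2.trans h2.2⟩
  le_antisymm x y h1 h2 := M.ext (h1.1.antisymm h2.1) (h1.2.antisymm h2.2)
  sup x y :=
    { S := x.S ∪ y.S
      P := x.P ∪ y.P
      arc := by
        rintro e (h | h)
        · exact x.arc e h
        · exact y.arc e h
      tail := by
        rintro e (h | h)
        · exact Or.inl (x.tail e h)
        · exact Or.inr (y.tail e h)
      full := by
        rintro v (h | h)
        · rcases x.full v h with ⟨w, hw⟩ | h'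
          · exact Or.inl ⟨w, Or.inl hw⟩
          · exact Or.inr fun u hu => Or.inl (h' u hu)
        · rcases y.full v h with ⟨w, hw⟩ | h'
          · exact Or.inl ⟨w, Or.inr hw⟩
          · exact Or.inr fun u hu => Or.inr (h' u hu) }
  inf x y :=
    { S := x.S ∩ y.S
      P := {v | (v ∈ x.P ∧ v ∈ y.P) ∧
        ((∃ w, (v, w) ∈ x.S ∩ y.S) ∨ ∀ u, R u v → (u, v) ∈ x.S ∩ y.S)}
      arc := fun e h => x.arc e h.1
      tail := fun e h => ⟨⟨x.tail e h.1, y.tail e h.2⟩, Or.inl ⟨e.2, h⟩⟩
      full := fun v h => h.2 }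
  le_sup_left x y := ⟨Set.subset_union_left, Set.subset_union_left⟩
  le_sup_right x y := ⟨Set.subset_union_right, Set.subset_union_right⟩
  sup_le x y z h1 h2 := ⟨Set.union_subset h1.1 h2.1, Set.union_subset h1.2 h2.2⟩
  inf_le_left x y := ⟨Set.inter_subset_left, fun v h => h.1.1⟩
  inf_le_right x y := ⟨Set.inter_subset_right, fun v h => h.1.2⟩
  le_inf x y z h1 h2 := ⟨Set.subset_inter h1.1 h2.1, fun v h => ⟨⟨h1.2 h, h2.2 h⟩, by
    rcases x.full v h with ⟨w, hw⟩ | h'
    · exact Or.inl ⟨w, h1.1 hw, h2.1 hw⟩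
    · exact Or.inr fun u hu => ⟨h1.1 (h' u hu), h2.1 (h' u hu)⟩⟩⟩

theorem M.le_def {x y : M R} : x ≤ y ↔ x.S ⊆ y.S ∧ x.P ⊆ y.P := Iff.rfl
theorem M.sup_S (x y : M R) : (x ⊔ y).S = x.S ∪ y.S := rfl
theorem M.sup_P (x y : M R) : (x ⊔ y).P = x.P ∪ y.P := rfl
theorem M.inf_S (x y : M R) : (x ⊓ y).S = x.S ∩ y.S := rfl
theorem M.mem_inf_P {x y : M R} {v : V} : v ∈ (x ⊓ y).P ↔ (v ∈ x.P ∧ v ∈ y.P) ∧
    ((∃ w, (v, w) ∈ x.S ∩ y.S) ∨ ∀ u, R u v → (u, v) ∈ x.S ∩ y.S) := Iff.rfl

instance [Finite V] : Finite (M R) :=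
  Finite.of_injective (fun x : M R => (x.S, x.P)) fun _ _ h => M.ext (Prod.ext_iff.1 h).1
    (Prod.ext_iff.1 h).2

/-- `M R` is semidistributive. -/
theorem M.semidistributive : Semidistributive (M R) := by
  constructor
  · intro x y z h
    apply le_antisymm
    · exact sup_le_sup_left inf_le_left _
    have hS : x.S ∪ y.S = x.S ∪ z.S := congrArg M.S h
    have hP : x.P ∪ y.P = x.P ∪ z.P := congrArg M.P h
    refine ⟨?_, ?_⟩
    · rintro e (he | he)
      · exact Or.inl he
      · have : e ∈ x.S ∪ z.S := hS ▸ Or.inr he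
        rcases this with h1 | h1
        · exact Or.inl h1
        · exact Or.inr ⟨he, h1⟩
    · rintro v (hv | hv)
      · exact Or.inl hv
      · by_cases hvx : v ∈ x.P
        · exact Or.inl hvx
        · have hvz : v ∈ z.P := by
            have : v ∈ x.P ∪ z.P := hP ▸ Or.inr hv
            exact this.resolve_left hvx
          right
          rw [M.mem_inf_P]
          refine ⟨⟨hv, hvz⟩, ?_⟩
          have hnx : ∀ w, (v, w) ∉ x.S := fun w hw => hvx (x.tail _ hw)
          rcases y.full v hv with ⟨w, hw⟩ | h1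
          · have : (v, w) ∈ x.S ∪ z.S := hS ▸ Or.inr hw
            exact Or.inl ⟨w, hw, this.resolve_left (hnx w)⟩
          · rcases z.full v hvz with ⟨w, hw⟩ | h2
            · have : (v, w) ∈ x.S ∪ y.S := hS ▸ Or.inr hw
              exact Or.inl ⟨w, this.resolve_left (hnx w), hw⟩
            · exact Or.inr fun u hu => ⟨h1 u hu, h2 u hu⟩
  · intro x y z h
    apply le_antisymm
    · have hS : x.S ∩ y.S = x.S ∩ z.S := congrArg M.S h
      have hS2 : x.S ∩ (y.S ∪ z.S) = x.S ∩ y.S := by
        rw [Set.inter_union_distrib_left, ← hS, Set.union_self]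
      refine ⟨?_, ?_⟩
      · change x.S ∩ (y.S ∪ z.S) ⊆ x.S ∩ y.S
        rw [hS2]
      · rintro v ⟨⟨hvx, hvyz⟩, hc⟩
        change (∃ w, (v, w) ∈ x.S ∩ (y.S ∪ z.S)) ∨ ∀ u, R u v → (u, v) ∈ x.S ∩ (y.S ∪ z.S) at hc
        rw [hS2] at hc
        rcases hvyz with hv | hv
        · exact ⟨⟨hvx, hv⟩, hc⟩
        · have : v ∈ (x ⊓ z).P := by
            rw [hS] at hc
            exact ⟨⟨hvx, hv⟩, hc⟩
          rw [← h] at this
          exact this
    · exact inf_le_inf_left _ le_sup_left

/-- The join-irreducible element attached to a vertex. -/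
def B (R : V → V → Prop) (v : V) : M R where
  S := {e | e.2 = v ∧ R e.1 v}
  P := {u | u = v ∨ R u v}
  arc := fun e h => by rw [h.1]; exact h.2
  tail := fun e h => Or.inr h.2
  full := by
    rintro u (rfl | h)
    · exact Or.inr fun w hw => ⟨rfl, hw⟩
    · exact Or.inl ⟨v, rfl, h⟩

/-- The lower cover of `B v`. -/
def Bs (R : V → V → Prop) (v : V) : M R where
  S := {e | e.2 = v ∧ R e.1 v}
  P := {u | R u v}
  arc := fun e h => by rw [h.1]; exact h.2
  tail := fun e h => h.2
  full := fun u h => Or.inl ⟨v, rfl, h⟩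

theorem eq_B (hR : ∀ v, ¬ R v v) {x : M R} {v : V} (hx : x ≤ B R v) (hv : v ∈ x.P) : x = B R v := by
  apply le_antisymm hx
  have h1 : ∀ u, R u v → (u, v) ∈ x.S := by
    rcases x.full v hv with ⟨w, hw⟩ | h
    · have := hx.1 hw
      exact absurd (this.2) (hR v)
    · exact h
  refine ⟨?_, ?_⟩
  · rintro ⟨a, b⟩ ⟨hb, hab⟩
    simp only at hb hab
    subst hb
    exact h1 a hab
  · rintro u (rfl | hu)
    · exact hv
    · exact x.tail _ (h1 u hu)

theorem supIrred_B (hR : ∀ v, ¬ R v v) (v : V) : SupIrred (B R v) := by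
  refine ⟨fun hmin => ?_, fun b c hbc => ?_⟩
  · have h1 : Bs R v ≤ B R v := ⟨subset_rfl, fun u hu => Or.inr hu⟩
    have h2 := (hmin h1).2 (show v ∈ (B R v).P from Or.inl rfl)
    exact hR v h2
  · have hv : v ∈ (b ⊔ c).P := by rw [hbc]; exact Or.inl rfl
    rcases hv with hv | hv
    · exact Or.inl (eq_B hR (hbc ▸ le_sup_left) hv)
    · exact Or.inr (eq_B hR (hbc ▸ le_sup_right) hv)

theorem isStar_B (hR : ∀ v, ¬ R v v) (v : V) : IsStar (Bs R v) (B R v) := by
  have h1 : Bs R v ≤ B R v := ⟨subset_rfl, fun u hu => Or.inr hu⟩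
  refine ⟨lt_of_le_of_ne h1 fun h => ?_, fun x hx => ?_⟩
  · have : v ∈ (Bs R v).P := by rw [h]; exact Or.inl rfl
    exact hR v this
  · refine ⟨hx.le.1, fun u hu => ?_⟩
    rcases hx.le.2 hu with h | h
    · subst h
      exact absurd (eq_B hR hx.le hu) hx.ne
    · exact h

theorem arr_B (hR : ∀ v, ¬ R v v) {v w : V} (h : v ≠ w) : Arr (B R w) (B R v) ↔ R v w := by
  rw [(isStar_B hR v).arr_iff]
  constructor
  · intro hle
    have : v ∈ (B R w ⊔ Bs R v).P := hle.2 (Or.inl rfl)
    rcases this with (h1 | h1) | h1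
    · exact absurd h1 h
    · exact h1
    · exact absurd h1 (hR v)
  · intro hvw
    refine ⟨fun e he => Or.inr he, ?_⟩
    rintro u (rfl | hu)
    · exact Or.inl (Or.inr hvw)
    · exact Or.inr hu

end Digraph

/-! ### The Grötzsch graph -/

/-- The Grötzsch graph on `{0, …, 10}`: the 5-cycle `0 1 2 3 4`, its shadow vertices
`5, …, 9` (`5 + i` is adjacent to the two neighbours of `i` on the cycle) and the vertex `10`, which is
adjacent to `5, …, 9`. -/
def edges : List (Fin 11 × Fin 11) :=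
  [(0, 1), (1, 2), (2, 3), (3, 4), (0, 4),
   (4, 5), (1, 5), (0, 6), (2, 6), (1, 7), (3, 7), (2, 8), (4, 8), (3, 9), (0, 9),
   (5, 10), (6, 10), (7, 10), (8, 10), (9, 10)]

/-- Adjacency in the Grötzsch graph. -/
def T (v w : Fin 11) : Prop := (v, w) ∈ edges ∨ (w, v) ∈ edges

instance : DecidableRel T := fun _ _ => inferInstanceAs (Decidable (_ ∨ _))

/-- The digraph: the Grötzsch graph with the edges directed upwards. -/
def R11 (v w : Fin 11) : Prop := (v, w) ∈ edges

theorem T_symm {v w : Fin 11} (h : T v w) : T w v := h.symm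

theorem T_irrefl : ∀ v, ¬ T v v := by decide

theorem R11_irrefl : ∀ v, ¬ R11 v v := fun v h => T_irrefl v (Or.inl h)

theorem T_triangle : ∀ a b c, T a b → T b c → ¬ T a c := by decide

theorem not_colorable_aux : ∀ c0 c1 c2 c3 c4 x : Fin 3, c0 ≠ c1 → c1 ≠ c2 → c2 ≠ c3 → c3 ≠ c4 →
    c0 ≠ c4 → (c4 ≠ c1 ∧ c4 ≠ x ∧ c1 ≠ x) ∨ (c0 ≠ c2 ∧ c0 ≠ x ∧ c2 ≠ x) ∨
      (c1 ≠ c3 ∧ c1 ≠ x ∧ c3 ≠ x) ∨ (c2 ≠ c4 ∧ c2 ≠ x ∧ c4 ≠ x) ∨
      (c3 ≠ c0 ∧ c3 ≠ x ∧ c0 ≠ x) := by
  decide

theorem fin3_aux : ∀ a b x s : Fin 3, (a ≠ b ∧ a ≠ x ∧ b ≠ x) → a ≠ s → b ≠ s → s ≠ x → False := by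
  decide

theorem not_colorable (c : Fin 11 → Fin 3) (hc : ∀ v w, T v w → c v ≠ c w) : False := by
  have h : ∀ v w, (v, w) ∈ edges → c v ≠ c w := fun v w h => hc v w (Or.inl h)
  rcases not_colorable_aux (c 0) (c 1) (c 2) (c 3) (c 4) (c 10) (h 0 1 (by decide))
    (h 1 2 (by decide)) (h 2 3 (by decide)) (h 3 4 (by decide)) (h 0 4 (by decide)) with
    h1 | h1 | h1 | h1 | h1
  · exact fin3_aux _ _ _ _ h1 (h 4 5 (by decide)) (h 1 5 (by decide)) (h 5 10 (by decide))
  · exact fin3_aux _ _ _ _ h1 (h 0 6 (by decide)) (h 2 6 (by decide)) (h 6 10 (by decide))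
  · exact fin3_aux _ _ _ _ h1 (h 1 7 (by decide)) (h 3 7 (by decide)) (h 7 10 (by decide))
  · exact fin3_aux _ _ _ _ h1 (h 2 8 (by decide)) (h 4 8 (by decide)) (h 8 10 (by decide))
  · exact fin3_aux _ _ _ _ h1 (h 3 9 (by decide)) (h 0 9 (by decide)) (h 9 10 (by decide))

/-- No arrow relation has the Grötzsch graph as its comparability graph. -/
theorem no_arrows (A : Fin 11 → Fin 11 → Prop) (hT : ∀ v w, v ≠ w → (T v w ↔ A v w ∨ A w v))
    (hrefl : ∀ v, A v v)
    (hF : ∀ v w, A v w → ∃ k, (∀ z, A k z → A v z) ∧ ∀ z, A z k → A z w) : False := by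
  classical
  have hne : ∀ {v w}, T v w → v ≠ w := fun {v w} h hvw => T_irrefl v (by rw [hvw] at h ⊢; exact h)
  let O : Fin 11 → Fin 11 → Prop := fun v w =>
    T v w ∧ ((v < w ∧ A v w) ∨ (w < v ∧ ¬ A w v))
  have hOA : ∀ {v w}, O v w → A v w := by
    rintro v w ⟨h, ⟨_, h1⟩ | ⟨_, h1⟩⟩
    · exact h1
    · exact ((hT v w (hne h)).1 h).resolve_right h1
  have hOO : ∀ {v w}, O v w → ¬ O w v := by
    rintro v w ⟨_, ⟨h1, h2⟩ | ⟨h1, h2⟩⟩ ⟨_, ⟨h3, h4⟩ | ⟨h3, h4⟩⟩
    · exact absurd h3 (lt_asymm h1)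
    · exact h4 h2
    · exact h2 h4
    · exact absurd h3 (lt_asymm h1)
  have hTO : ∀ {v w}, T v w → O v w ∨ O w v := by
    intro v w h
    rcases lt_or_gt_of_ne (hne h) with h1 | h1
    · by_cases h2 : A v w
      · exact Or.inl ⟨h, Or.inl ⟨h1, h2⟩⟩
      · exact Or.inr ⟨T_symm h, Or.inr ⟨h1, h2⟩⟩
    · by_cases h2 : A w v
      · exact Or.inr ⟨T_symm h, Or.inl ⟨h1, h2⟩⟩
      · exact Or.inl ⟨h, Or.inr ⟨h1, h2⟩⟩
  have hAT : ∀ {v w}, v ≠ w → A v w → T v w := fun h h1 => (hT _ _ h).2 (Or.inl h1)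
  have walk : ∀ {a b c d}, O a b → O b c → O c d → False := by
    intro a b c d hab hbc hcd
    have hac : a ≠ c := by rintro rfl; exact hOO hab hbc
    have hbd : b ≠ d := by rintro rfl; exact hOO hbc hcd
    obtain ⟨k, hk1, hk2⟩ := hF b c (hOA hbc)
    by_cases hkb : k = b
    · subst hkb
      have h1 : A a c := hk2 a (hOA hab)
      exact T_triangle a k c hab.1 hbc.1 (hAT hac h1)
    · by_cases hkc : k = c
      · subst hkc
        have h1 : A b d := hk1 d (hOA hcd)
        exact T_triangle b k d hbc.1 hcd.1 (hAT hbd h1)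
      · have h1 : T b k := hAT (Ne.symm hkb) (hk1 k (hrefl k))
        have h2 : T k c := hAT hkc (hk2 k (hrefl k))
        exact T_triangle b k c h1 h2 hbc.1
  let P1 : Fin 11 → Prop := fun v => ∃ u, O u v
  let P2 : Fin 11 → Prop := fun v => ∃ u t, O t u ∧ O u v
  let c : Fin 11 → Fin 3 := fun v => if P2 v then 2 else if P1 v then 1 else 0
  have key : ∀ {v w}, O v w → c v ≠ c w := by
    intro v w h
    have h1 : P1 w := ⟨v, h⟩
    have h2 : ¬ P2 v := by
      rintro ⟨u, t, h3, h4⟩
      exact walk h3 h4 h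
    by_cases h3 : P1 v
    · have h4 : P2 w := by
        obtain ⟨u, hu⟩ := h3
        exact ⟨v, u, hu, h⟩
      simp only [c, if_neg h2, if_pos h3, if_pos h4]
      decide
    · by_cases h4 : P2 w
      · simp only [c, if_neg h2, if_neg h3, if_pos h4]
        decide
      · simp only [c, if_neg h2, if_neg h3, if_neg h4, if_pos h1]
        decide
  refine not_colorable c fun v w h => ?_
  rcases hTO h with h1 | h1
  · exact key h1
  · exact (key h1).symm

/-- **The class of canonical join complexes of finite semidistributive lattices is not closed under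
induced subcomplexes** (negative answer to Q1): there are a finite semidistributive lattice
`L` and a set `W` of join-irreducible elements of `L` such that for every finite semidistributive
lattice `L'` no bijection of `W` with the set of join-irreducible elements of `L'` is an isomorphism
of the induced subcomplex on `W` of the canonical join complex of `L` with the canonical join complex
of `L'`. -/
theorem result : ∃ (L : Type) (_ : Lattice L) (_ : Finite L) (W : Set L), Semidistributive L ∧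
    (∀ j ∈ W, SupIrred j) ∧
    ∀ (L' : Type*) [Lattice L'] [Finite L'], Semidistributive L' →
      ¬ ∃ f : W ≃ {j : L' // SupIrred j}, ∀ A : Set W,
        IsFace ((fun a : W => (a : L)) '' A) ↔ IsFace ((fun a : W => (f a : L')) '' A) := by
  refine ⟨M R11, inferInstance, inferInstance, Set.range (B R11), M.semidistributive, ?_, ?_⟩
  · rintro _ ⟨v, rfl⟩
    exact supIrred_B R11_irrefl v
  · rintro L' _ _ hL' ⟨f, hf⟩
    let b : Fin 11 → Set.range (B R11) := fun v => ⟨B R11 v, v, rfl⟩
    have hasymm : ∀ v w, R11 v w → ¬ R11 w v := by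
      unfold R11; decide
    have hBinj : ∀ v w, v ≠ w → B R11 v ≠ B R11 w := by
      intro v w hvw h
      have h1 : v ∈ (B R11 w).P := by rw [← h]; exact Or.inl rfl
      have h2 : w ∈ (B R11 v).P := by rw [h]; exact Or.inl rfl
      rcases h1 with h1 | h1
      · exact hvw h1
      · rcases h2 with h2 | h2
        · exact hvw h2.symm
        · exact hasymm v w h1 h2
    let g : Fin 11 → L' := fun v => (f (b v) : L')
    have hgirr : ∀ v, SupIrred (g v) := fun v => (f (b v)).2
    have hginj : ∀ v w, v ≠ w → g v ≠ g w := by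
      intro v w hvw h
      have h1 : f (b v) = f (b w) := Subtype.ext h
      have h2 := f.injective h1
      exact hBinj v w hvw (congrArg Subtype.val h2)
    have hgsurj : ∀ j : L', SupIrred j → ∃ v, g v = j := by
      intro j hj
      obtain ⟨v, hv⟩ := (f.symm ⟨j, hj⟩).2
      refine ⟨v, ?_⟩
      have : b v = f.symm ⟨j, hj⟩ := Subtype.ext hv
      change (f (b v) : L') = j
      rw [this, Equiv.apply_symm_apply]
    refine no_arrows (fun v w => Arr (g v) (g w)) ?_ ?_ ?_
    · intro v w hvw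
      have h1 : IsFace ({B R11 v, B R11 w} : Set (M R11)) ↔ IsFace ({g v, g w} : Set L') := by
        have := hf {b v, b w}
        rw [Set.image_pair, Set.image_pair] at this
        exact this
      rw [pair_face M.semidistributive (supIrred_B R11_irrefl v) (supIrred_B R11_irrefl w)
        (hBinj v w hvw), pair_face hL' (hgirr v) (hgirr w) (hginj v w hvw),
        arr_B R11_irrefl hvw, arr_B R11_irrefl hvw.symm] at h1
      have h2 : T v w ↔ ¬ (¬ R11 w v ∧ ¬ R11 v w) := by
        change (R11 v w ∨ R11 w v) ↔ _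
        tauto
      rw [h2, h1]
      tauto
    · intro v
      exact arr_of_le (hgirr v) le_rfl
    · intro v w h
      obtain ⟨k, hk, h1, h2⟩ := factor hL' (hgirr w) h
      obtain ⟨u, rfl⟩ := hgsurj k hk
      exact ⟨u, fun z => h1 (g z), fun z => h2 (g z)⟩

end Pool.Agent.Results.MP_b1aa48_co.InducedSubcomplex
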